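import Mathlib

set_option autoImplicit false
set_option linter.all false

open Module TensorProduct

namespace FFT

/-- extension of a homomorphism from a linearly disjoint subring -/
theorem ext_hom {K E A M E' ι : Type*} [Field K] [Field E] [CommRing A] [Field M] [CommRing E']
    [Algebra K E] [Algebra K A] [Algebra K M] [Algebra E M] [Algebra A M]
    [IsScalarTower K E M] [IsScalarTower K A M] [Algebra K E'] [Algebra E E'] [IsScalarTower K E E']
    (b : Basis ι K A) (hb : LinearIndependent E (fun i => algebraMap A M (b i)))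
    (φ : A →ₐ[K] E') (S : Set M) (hS : S ⊆ Set.range (algebraMap A M)) :
    Nonempty (Algebra.adjoin E S →ₐ[E] E') := by
  let μ : E ⊗[K] A →ₐ[E] M :=
    Algebra.TensorProduct.lift (Algebra.ofId E M) (IsScalarTower.toAlgHom K A M)
      (fun _ _ => Commute.all _ _)
  have hμ : ∀ (e : E) (a : A), μ (e ⊗ₜ a) = algebraMap E M e * algebraMap A M a := by
    intro e a
    simp [μ, Algebra.ofId_apply]
  have hinj : Function.Injective μ := by
    have hb' : LinearIndependent E (μ.toLinearMap ∘ (b.baseChange E)) := by
      have : (μ.toLinearMap ∘ (b.baseChange E)) = (fun i => algebraMap A M (b i)) := by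
        funext i
        simp [hμ]
      rw [this]; exact hb
    rw [injective_iff_map_eq_zero]
    intro t ht
    have h1 : Finsupp.linearCombination E (μ.toLinearMap ∘ (b.baseChange E))
        ((b.baseChange E).repr t) = 0 := by
      rw [← LinearMap.map_finsupp_linearCombination, (b.baseChange E).linearCombination_repr]
      exact ht
    have h2 := (linearIndependent_iff.1 hb') _ h1
    exact (LinearEquiv.map_eq_zero_iff _).1 h2
  have hle : Algebra.adjoin E S ≤ μ.range := by
    rw [Algebra.adjoin_le_iff]
    intro t ht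
    obtain ⟨a, rfl⟩ := hS ht
    exact ⟨1 ⊗ₜ a, by simp [hμ]⟩
  let e : (E ⊗[K] A) ≃ₐ[E] μ.range := AlgEquiv.ofInjective μ hinj
  let ψ : E ⊗[K] A →ₐ[E] E' :=
    Algebra.TensorProduct.lift (Algebra.ofId E E') φ (fun _ _ => Commute.all _ _)
  exact ⟨(ψ.comp e.symm.toAlgHom).comp (Subalgebra.inclusion hle)⟩

/-- degree bookkeeping -/
theorem dvd_of_factors {K E Ψ : Type} [Field K] [CharZero K] [Field E] [Algebra K E] [Field Ψ] [Algebra K Ψ]
    [FiniteDimensional K Ψ] (I : ℕ)
    (h : ∀ (E' : Type) [Field E'] [Algebra E E'] [Algebra K E'] [IsScalarTower K E E'],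
      FiniteDimensional E E' → Nonempty (Ψ →ₐ[K] E') → I ∣ finrank E E') :
    I ∣ finrank K Ψ := by
  classical
  let pb := Field.powerBasisOfFiniteOfSeparable K Ψ
  set f := minpoly K pb.gen with hf
  have hint : IsIntegral K pb.gen := pb.isIntegral_gen
  have hmon : f.Monic := minpoly.monic hint
  set g := f.map (algebraMap K E) with hg
  have hgm : g.Monic := hmon.map _
  have hdeg : finrank K Ψ = g.natDegree := by
    rw [pb.finrank, hg, Polynomial.natDegree_map, hf, pb.natDegree_minpoly]
  rw [hdeg]
  -- the product of the normalized factors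
  have hprod : (UniqueFactorizationMonoid.normalizedFactors g).prod = g := by
    have h1 := UniqueFactorizationMonoid.prod_normalizedFactors_eq (hgm.ne_zero)
    rw [h1, hgm.normalize_eq_self]
  have hdvd : ∀ p ∈ UniqueFactorizationMonoid.normalizedFactors g, I ∣ p.natDegree := by
    intro p hp
    have hirr : Irreducible p := UniqueFactorizationMonoid.irreducible_of_normalized_factor p hp
    have hpg : p ∣ g := UniqueFactorizationMonoid.dvd_of_mem_normalizedFactors hp
    haveI : Fact (Irreducible p) := ⟨hirr⟩
    let E' := AdjoinRoot p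
    have hfin : FiniteDimensional E E' := (AdjoinRoot.powerBasis hirr.ne_zero).finite
    have hfr : finrank E E' = p.natDegree := by
      rw [(AdjoinRoot.powerBasis hirr.ne_zero).finrank, AdjoinRoot.powerBasis_dim]
    rw [← hfr]
    refine h E' hfin ⟨pb.lift (AdjoinRoot.root p) ?_⟩
    have h2 : Polynomial.aeval (AdjoinRoot.root p) g = 0 := by
      obtain ⟨q, hq⟩ := hpg
      rw [hq, map_mul, AdjoinRoot.aeval_eq, AdjoinRoot.mk_self, zero_mul]
    rwa [hg, Polynomial.aeval_map_algebraMap] at h2
  rw [← hprod, Polynomial.natDegree_multiset_prod]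
  · refine Multiset.dvd_sum ?_
    intro x hx
    obtain ⟨p, hp, rfl⟩ := Multiset.mem_map.1 hx
    exact hdvd p hp
  · intro h0
    exact (UniqueFactorizationMonoid.irreducible_of_normalized_factor 0 h0).ne_zero rfl

end FFT
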